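import Pool.Agent.H28.N6.Lib

set_option autoImplicit false
open MeasureTheory Pool.Agent.H28.N6 Polynomial

namespace Pool.Agent.H28.N6D

theorem pf_SIM : T_SIM := by
  intro F _ n A B hB hA
  refine ⟨hA, ?_⟩
  intro r hr
  have hr0 : r ≠ 0 := by
    rintro rfl
    rw [dp_eval, zero_smul, add_zero] at hr
    exact hB hr
  -- the functional equation
  have hfe : ∀ x : F, x ≠ 0 → (dp B A).eval x = x ^ n * (dp A B).eval x⁻¹ := by
    intro x hx
    rw [dp_eval, dp_eval]
    have : B + x • A = x • (A + x⁻¹ • B) := by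
      rw [smul_add, smul_smul, mul_inv_cancel₀ hx, one_smul, add_comm]
    rw [this, Matrix.det_smul, Fintype.card_fin]
  have hP0 : (dp A B).eval r⁻¹ = 0 := by
    have := hfe r hr0
    rw [hr] at this
    exact (mul_eq_zero.1 this.symm).resolve_left (pow_ne_zero _ hr0)
  have hP1 := hA r⁻¹ hP0
  intro hQ
  -- two derivatives of the same function
  have d1 : HasDerivAt (fun x => (dp B A).eval x) ((dp B A).derivative.eval r) r :=
    (dp B A).hasDerivAt r
  have d2 : HasDerivAt (fun x : F => x ^ n * (dp A B).eval x⁻¹)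
      ((n : F) * r ^ (n - 1) * (dp A B).eval r⁻¹ +
        r ^ n * ((dp A B).derivative.eval r⁻¹ * (-(r ^ 2)⁻¹))) r := by
    have e1 : HasDerivAt (fun x : F => x ^ n) ((n : F) * r ^ (n - 1)) r := hasDerivAt_pow n r
    have e2 : HasDerivAt (fun x : F => (dp A B).eval x⁻¹)
        ((dp A B).derivative.eval r⁻¹ * (-(r ^ 2)⁻¹)) r :=
      ((dp A B).hasDerivAt r⁻¹).comp r (hasDerivAt_inv hr0)
    exact e1.mul e2
  have d3 : HasDerivAt (fun x : F => x ^ n * (dp A B).eval x⁻¹)
      ((dp B A).derivative.eval r) r := by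
    refine d1.congr_of_eventuallyEq ?_
    filter_upwards [isOpen_ne.mem_nhds hr0] with x hx
    exact (hfe x hx).symm
  have e := d2.unique d3
  rw [hQ, hP0, mul_zero, zero_add] at e
  have : r ^ n * ((dp A B).derivative.eval r⁻¹ * (-(r ^ 2)⁻¹)) ≠ 0 :=
    mul_ne_zero (pow_ne_zero _ hr0) (mul_ne_zero hP1 (neg_ne_zero.2 (inv_ne_zero
      (pow_ne_zero _ hr0))))
  exact this e

end Pool.Agent.H28.N6D
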