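import Pool.Agent.H28.N6.Targets

set_option autoImplicit false
open MeasureTheory Pool.Agent.H28.N6

namespace Pool.Agent.H28.N6D

theorem pf_TER (hTEA : T_TEA) (hTEB : T_TEB) : T_TER := by
  intro F _ _ _ _ _ D h2 h hs ha
  obtain ⟨l, hl⟩ := hTEA F D h2 h hs ha
  obtain ⟨C, hC⟩ := hTEB F D h ha l
  exact ⟨l, C, fun a m h1 => ⟨hl a m h1, hC a m⟩⟩

end Pool.Agent.H28.N6D
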