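import Pool.Agent.H1.N6D.DAT
import Pool.Agent.H1.N6D.ONE
import Pool.Agent.H1.N6D.VLC
import Pool.Agent.H10.N6D.CHA
import Pool.Agent.H10.N6D.SEP
import Pool.Agent.H11.N6D.FU2
import Pool.Agent.H11.N6D.FUB
import Pool.Agent.H11.N6D.NRM
import Pool.Agent.H12.N6D.BOX
import Pool.Agent.H12.N6D.CH1
import Pool.Agent.H14.N6D.BAL
import Pool.Agent.H14.N6D.GLO
import Pool.Agent.H17.N6D.AVG
import Pool.Agent.H17.N6D.TEB
import Pool.Agent.H21.N6D.AVF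
import Pool.Agent.H28.N6D.SIM
import Pool.Agent.H28.N6D.TER
import Pool.Agent.H35.N6D.TEA
import Pool.Agent.H41.N6D.CPT
import Pool.Agent.H46.N6D.DIR
import Pool.Agent.H50.N6D.QUA
import Pool.Agent.H59.N6D.MSC
import Pool.Agent.H69.N6D.SCI
import Pool.Agent.H79.N6D.NRR
import Pool.Agent.H79.N6D.POS
import Pool.Agent.H81.N6D.ANI
import Pool.Agent.H81.N6D.HVF
import Pool.Agent.H81.N6D.SUB
import Pool.Agent.H86.N6D.HTB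
import Pool.Agent.H86.N6D.WIT
import Pool.Agent.H89.N6D.CH2
import Pool.Agent.H91.N6D.HPN
import Pool.Agent.H91.N6D.ISQ
import Pool.Agent.H91.N6D.MEA
import Pool.Agent.H91.N6D.NEA
import Pool.Agent.H99.N6D.LCO

/-!
# N6, block D: the quaternary lemma
-/

set_option autoImplicit false
open MeasureTheory Pool.Agent.H28.N6

namespace Pool.Agent.H28.N6D

theorem r_BAL : T_BAL := H14.N6D.pf_BAL

theorem r_NRM : T_NRM := H11.N6D.pf_NRM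

theorem r_ONE : T_ONE := H1.N6D.pf_ONE r_BAL r_NRM

theorem r_FUB : T_FUB := H11.N6D.pf_FUB

theorem r_GLO : T_GLO := H14.N6D.pf_GLO r_BAL

theorem r_SUB : T_SUB := H81.N6D.SUB.pf_SUB (H12.N6D.pf_BOX r_BAL r_ONE r_FUB) r_BAL r_NRM

theorem r_ANI : T_ANI := H81.N6D.ANI.pf_ANI r_BAL

theorem r_HTB : T_HTB := H86.N6D.pf_HTB (H81.N6D.pf_HVF r_ONE r_FUB) r_NRM

theorem r_HPN : T_HPN := H91.N6D.pf_HPN H11.N6D.pf_FU2 r_HTB r_ANI r_NRM r_BAL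

theorem r_POS : T_POS := H79.N6D.pf_POS (H91.N6D.pf_ISQ H86.N6D.pf_WIT r_HPN r_SUB r_GLO r_BAL) r_ANI

theorem r_LCO : T_LCO := H99.N6D.pf_LCO

theorem r_VLC : T_VLC := H1.N6D.pf_VLC r_LCO r_GLO

theorem r_TER : T_TER :=
  pf_TER (H35.N6D.pf_TEA r_SUB r_BAL r_NRM) (H17.N6D.pf_TEB r_ANI r_BAL)

theorem r_NEA : T_NEA := H91.N6D.pf_NEA r_TER r_FUB r_BAL r_NRM

theorem r_MEA : T_MEA := H91.N6D.pf_MEA

theorem r_CHA (hNFR : T_NFR) : T_CHA :=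
  H10.N6D.pf_CHA (H12.N6D.pf_CH1 (H79.N6D.pf_NRR hNFR r_NEA r_GLO r_NRM) r_MEA r_BAL)
    (H89.N6D.pf_CH2 r_VLC r_POS) r_VLC r_POS r_MEA r_BAL

theorem r_AVG : T_AVG :=
  H17.N6D.pf_AVG H21.N6D.pf_AVF (H46.N6D.pf_DIR r_ONE r_NRM r_BAL) (H59.N6D.pf_MSC r_BAL) r_MEA
    r_NRM r_BAL

theorem r_SEP (hNFR : T_NFR) : T_SEP :=
  H10.N6D.pf_SEP H1.N6D.pf_DAT (r_CHA hNFR) r_AVG H69.N6D.pf_SCI

theorem r_QUA (hNFR : T_NFR) (hDEN : T_DEN) : T_QUA :=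
  H50.N6D.pf_QUA (r_SEP hNFR) hDEN pf_SIM H41.N6D.pf_CPT

end Pool.Agent.H28.N6D
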