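import Pool.Agent.H28.N6.Targets

set_option autoImplicit false
open MeasureTheory Pool.Agent.H28.N6 Polynomial

namespace Pool.Agent.H28.N6D

theorem exists_odd_factor {F : Type} [Field F] : ∀ (n : ℕ) (P : F[X]), P.natDegree = n → Odd n →
    ∃ P0 : F[X], Irreducible P0 ∧ Odd P0.natDegree ∧ P0 ∣ P := by
  intro n
  induction n using Nat.strong_induction_on with
  | _ n ih =>
    intro P hP ho
    have hd : P.natDegree ≠ 0 := by
      rintro h0
      rw [h0] at hP
      rw [← hP] at ho
      exact (Nat.not_odd_zero) ho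
    have hP0 : P ≠ 0 := by
      rintro rfl
      exact hd natDegree_zero
    obtain ⟨g, hg, h, hh⟩ := Polynomial.exists_irreducible_of_natDegree_ne_zero hd
    have hg0 : g ≠ 0 := hg.ne_zero
    have hh0 : h ≠ 0 := by
      rintro rfl
      rw [mul_zero] at hh
      exact hP0 hh
    have hdeg : P.natDegree = g.natDegree + h.natDegree := by
      rw [hh, natDegree_mul hg0 hh0]
    have hgpos : 0 < g.natDegree := hg.natDegree_pos
    rcases Nat.even_or_odd g.natDegree with he | hod
    · have hho : Odd h.natDegree := by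
        rcases Nat.even_or_odd h.natDegree with h1 | h1
        · exfalso
          have : Even P.natDegree := by
            rw [hdeg]
            exact he.add h1
          rw [hP] at this
          exact (Nat.not_even_iff_odd.2 ho) this
        · exact h1
      obtain ⟨P0, h1, h2, h3⟩ := ih h.natDegree (by omega) h rfl hho
      exact ⟨P0, h1, h2, h3.trans ⟨g, by rw [hh, mul_comm]⟩⟩
    · exact ⟨g, hg, hod, ⟨h, hh⟩⟩

theorem pf_ROT : T_ROT := by
  intro F _ _ _ P hP
  obtain ⟨P0, hi, ho, hdvd⟩ := exists_odd_factor P.natDegree P rfl hP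
  haveI : Fact (Irreducible P0) := ⟨hi⟩
  haveI hfin : FiniteDimensional F (AdjoinRoot P0) :=
    (AdjoinRoot.powerBasis hi.ne_zero).finite
  haveI : Algebra.IsAlgebraic F (AdjoinRoot P0) := Algebra.IsAlgebraic.of_finite F _
  letI nL : NontriviallyNormedField (AdjoinRoot P0) :=
    spectralNorm.nontriviallyNormedField F (AdjoinRoot P0)
  haveI uL : IsUltrametricDist (AdjoinRoot P0) :=
    IsUltrametricDist.isUltrametricDist_of_isNonarchimedean_norm
      (isNonarchimedean_spectralNorm (K := F) (L := AdjoinRoot P0))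
  letI aL : NormedAlgebra F (AdjoinRoot P0) :=
    spectralNorm.normedAlgebra F (AdjoinRoot P0)
  haveI pL : ProperSpace (AdjoinRoot P0) := FiniteDimensional.proper F (AdjoinRoot P0)
  refine ⟨AdjoinRoot P0, nL, uL, pL, aL.toAlgebra, hfin, ?_, ?_, AdjoinRoot.root P0, ?_⟩
  · have h1 := (AdjoinRoot.powerBasis hi.ne_zero).finrank
    rw [AdjoinRoot.powerBasis_dim] at h1
    have h2 : Module.finrank F (AdjoinRoot P0) = P0.natDegree := h1
    rw [← h2] at ho
    exact ho
  · intro x
    exact spectralNorm_extends (K := F) (L := AdjoinRoot P0) x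
  · obtain ⟨Q, hQ⟩ := hdvd
    have h3 : aeval (AdjoinRoot.root P0) P0 = 0 := by
      rw [AdjoinRoot.aeval_eq, AdjoinRoot.mk_self]
    have h4 : aeval (AdjoinRoot.root P0) P = 0 := by
      rw [hQ, map_mul, h3, zero_mul]
    exact h4

end Pool.Agent.H28.N6D
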