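import Pool.Agent.H28.N6D.Asm1
import Pool.Agent.H20.N6D.NFR
import Pool.Agent.H20.N6D.SPW
import Pool.Agent.H21.N6D.NFS
import Pool.Agent.H5.N6D.MOV
import Pool.Agent.H5.N6D.LI
import Pool.Agent.H11.N6D.SQU
import Pool.Agent.H28.N6D.ROT
import Pool.Agent.H29.N6D.KER
import Pool.Agent.H35.N6D.NF7
import Pool.Agent.H45.N6D.DDP
import Pool.Agent.H45.N6D.DEN
import Pool.Agent.H49.N6D.LL7
import Pool.Agent.H49.N6D.SEV
import Pool.Agent.H52.SAB.SPR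
import Pool.Agent.H59.N6D.INF
import Pool.Agent.H69.N6D.CNV
import Pool.Agent.H69.N6D.GMP
import Pool.Agent.H73.N6D.SV1
import Pool.Agent.H79.N6D.SPL
import Pool.Agent.H86.N6D.DER
import Pool.Agent.H89.N6D.SVA
import Pool.Agent.H99.N6D.NF0

/-!
# N6, block D: the local lemma
-/

set_option autoImplicit false
open MeasureTheory Pool.Agent.H28.N6

namespace Pool.Agent.H28.N6D

theorem r_NFR : T_NFR := H20.N6D.pf_NFR (H99.N6D.pf_NF0 H86.N6D.pf_DER) r_LCO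

theorem r_QUA' : T_QUA := r_QUA r_NFR (H45.N6D.pf_DEN H79.N6D.pf_SPL)

theorem r_NF7 : T_NF7 := H35.N6D.pf_NF7 H86.N6D.pf_DER H79.N6D.pf_SPL

theorem r_SVA : T_SVA := H89.N6D.pf_SVA r_NF7 (H21.N6D.pf_NFS r_LCO)

theorem r_SV1 : T_SV1 :=
  H73.N6D.pf_SV1 r_NF7 (H5.N6D.pf_MOV H11.N6D.pf_SQU) (H5.N6D.pf_LIF H5.N6D.pf_LI0) r_QUA' r_SVA
    (H59.N6D.pf_INF r_LCO) (H29.N6D.pf_KER H86.N6D.pf_DER)

theorem r_SEV : T_SEV := H49.N6D.pf_SEV pf_ROT r_SV1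

/-- the local lemma -/
theorem LL7 : Pool.Agent.H34.N6.T_LL7 :=
  H49.N6D.pf_LL7 r_SEV (H20.N6D.pf_SPW H52.SAB.pf_SPR) H69.N6D.pf_CNV H45.N6D.pf_DDP
    H69.N6D.pf_GMP

end Pool.Agent.H28.N6D
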